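import Pool.Agent.FGT.FinT

/-!
# The orientable genus of graphs embeddable in a fixed surface can be computed in polynomial time

Maps (cellular embeddings) of a connected graph are described by flags (`Pool/Agent/Helper35/OG/Map.lean`).
-/

set_option autoImplicit false

namespace Pool.Agent.Results.MP_6d4ab8_lc.AllGraphs

open Pool.Agent.Helper35.OG N68a2faeb

/-- `G` embeds in a closed surface (orientable or not) of Euler genus at most `k`: edges can be added to `G` such that the
graph becomes connected and has a cellular embedding in such a surface. -/
def Embeds {V : Type} (G : SimpleGraph V) (k : ℕ) : Prop :=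
  ∃ H : SimpleGraph V, G ≤ H ∧ H.Connected ∧ ∃ M : GMap H, M.eg ≤ k

/-- The orientable genus of `G`: the least `g` such that edges can be added to `G` such that the graph becomes connected and
has a cellular embedding in the orientable surface of genus `g`. -/
noncomputable def genus {V : Type} (G : SimpleGraph V) : ℕ :=
  sInf {g : ℕ | ∃ H : SimpleGraph V, G ≤ H ∧ H.Connected ∧ ∃ M : GMap H, M.Orientable ∧ M.eg = 2 * (g : ℤ)}

/-- For every `k` there is one polynomial time function which computes the orientable genus of every graph that embeds in
some closed surface (orientable or not) of Euler genus at most `k`. The input is only the list of the pairs of adjacent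
vertices; no embedding is given. The genus is attained; for connected `G` it is the least genus of a cellular embedding of
`G` itself. -/
theorem result (k : ℕ) : ∃ f : List (ℕ × ℕ) → ℕ, IsPolyTime f ∧
    ∀ (n : ℕ) (G : SimpleGraph (Fin n)), 2 ≤ n → Embeds G k →
      ∀ l : List (ℕ × ℕ), (∀ x, x ∈ l ↔ ∃ u v : Fin n, G.Adj u v ∧ x = ((u : ℕ), (v : ℕ))) →
        f l = genus G ∧
        (∃ H : SimpleGraph (Fin n), G ≤ H ∧ H.Connected ∧ ∃ M : GMap H, M.Orientable ∧ M.eg = 2 * (genus G : ℤ)) ∧
        (G.Connected → f l = orientableGenus G) := by
  obtain ⟨f, hf, h⟩ := Pool.Agent.FGT.main_of Pool.Agent.FGT.leafS k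
  exact ⟨f, hf, fun n G hn hG l hl => h n G hn hG l hl⟩

end Pool.Agent.Results.MP_6d4ab8_lc.AllGraphs
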