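import Pool.Agent.EXG.Main

/-!
# The exact orientable genus of a graph embedded in a non-orientable surface

`S` is a map (cellular embedding) of the connected simple graph `G` in a non-orientable surface of Euler genus `S.eg`,
and `faceDefect S` the smallest number of faces having a corner at which the orientations of the edge bands disagree: the
smallest number of faces met by a system of closed curves, crossing `G` at vertices only, which blocks the
non-orientability of the surface (the face-width, in the projective plane).
-/

set_option autoImplicit false

namespace Pool.Agent.Results.MP_6d4ab8_lc.ExactGenus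

open Pool.Agent.Helper35.OG Pool.Agent.Helper58.OG Pool.Agent.EXG

/-- `genus = ⌊(faceDefect + eg - 1) / 2⌋` if no two curve systems, neither null-homologous, whose sum is blocking meet
together fewer than `faceDefect + 4 * eg + 9` faces; in the projective plane (`eg = 1`) without any condition. -/
theorem result {V : Type} [Finite V] [Nontrivial V] (G : SimpleGraph V) (hG : G.Connected) (S : GMap G)
    (hS : ¬ S.Orientable) (h3 : 3 ≤ faceDefect S)
    (hgap : S.eg = 1 ∨ SplitWidth S ((faceDefect S : ℤ) + 4 * S.eg + 9)) :
    (∃ M : GMap G, M.Orientable ∧ M.eg = 2 * (orientableGenus G : ℤ)) ∧
      (orientableGenus G : ℤ) = ((faceDefect S : ℤ) + S.eg - 1) / 2 :=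
  main G hG S hS h3 hgap

end Pool.Agent.Results.MP_6d4ab8_lc.ExactGenus
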