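import Pool.Agent.Helper58.OG.Lw
import Pool.Agent.Helper58.OG.Up
import Pool.Agent.Helper35.OG.Parity

/-!
# Sharp bounds for the orientable genus of a graph embedded in a non-orientable surface

`S` is an arbitrary map (cellular embedding) of the connected simple graph `G` in a non-orientable surface of Euler
genus `S.eg`. `faceDefect S` is the smallest number of faces having a corner at which the orientations of the edge bands
disagree, and `S.defect` the smallest number of such corners.
-/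

set_option autoImplicit false

namespace Pool.Agent.Results.MP_6d4ab8_lc.SharpBounds

open Pool.Agent.Helper35.OG Pool.Agent.Helper58.OG

/-- `faceDefect - 2 eg ≤ 2 * genus ≤ faceDefect + eg - 1` and `defect - 6 eg ≤ 4 * genus ≤ defect + 2 eg - 2`. -/
theorem result {V : Type} [Finite V] [Nontrivial V] (G : SimpleGraph V) (hG : G.Connected) (S : GMap G)
    (hS : ¬ S.Orientable) :
    (∃ M : GMap G, M.Orientable ∧ M.eg = 2 * (orientableGenus G : ℤ)) ∧
      (faceDefect S : ℤ) - 2 * S.eg ≤ 2 * (orientableGenus G : ℤ) ∧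
      2 * (orientableGenus G : ℤ) ≤ (faceDefect S : ℤ) + S.eg - 1 ∧
      (S.defect : ℤ) - 6 * S.eg ≤ 4 * (orientableGenus G : ℤ) ∧
      4 * (orientableGenus G : ℤ) ≤ (S.defect : ℤ) + 2 * S.eg - 2 := by
  classical
  have := Fintype.ofFinite V
  -- an orientable map has even nonnegative Euler genus
  have hnat : ∀ M : GMap G, M.Orientable → ∃ g : ℕ, M.eg = 2 * (g : ℤ) := by
    intro M hM
    obtain ⟨g, hg⟩ := even_eg hG M hM
    have h0 : ((([] : List (M.Face × M.Face)).length : ℕ) : ℤ) ≤ M.eg :=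
      tri_bound M M hG [] (by intro p hp; simp at hp) List.Pairwise.nil
    have h1 : (0 : ℤ) ≤ M.eg := h0
    refine ⟨g.toNat, ?_⟩
    omega
  obtain ⟨T, hT, hTeg⟩ := upper_bound S hS
  obtain ⟨g, hg⟩ := hnat T hT
  have hmem : orientableGenus G ∈ {g : ℕ | ∃ M : GMap G, M.Orientable ∧ M.eg = 2 * (g : ℤ)} :=
    Nat.sInf_mem ⟨g, T, hT, hg⟩
  have hle : orientableGenus G ≤ g := Nat.sInf_le ⟨T, hT, hg⟩
  obtain ⟨M, hM, hMeg⟩ := hmem
  obtain ⟨hlow1, hlow2⟩ := lower_bounds hG S M hM
  have h2 := two_mul_faceDefect S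
  refine ⟨⟨M, hM, hMeg⟩, ?_, ?_, ?_, ?_⟩
  · omega
  · omega
  · omega
  · omega

end Pool.Agent.Results.MP_6d4ab8_lc.SharpBounds
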